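import Mathlib

/-! Continuous characters of the plane. -/

set_option autoImplicit false

open MeasureTheory

namespace Pool.Agent.W451.LY

lemma one_dim (f : ℝ → ℂ) (hn : ∀ t, ‖f t‖ = 1) (ha : ∀ s t, f (s + t) = f s * f t)
    (hc : Continuous f) : ∃ α : ℝ, ∀ t : ℝ, f t = Complex.exp (Complex.I * ((α * t : ℝ) : ℂ)) := by
  have hne : ∀ t, f t ≠ 0 := by
    intro t h
    have := hn t
    rw [h, norm_zero] at this
    exact zero_ne_one this
  have h0 : f 0 = 1 := by
    have h1 := ha 0 0
    rw [add_zero] at h1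
    have h2 : f 0 * (f 0 - 1) = 0 := by
      rw [mul_sub, ← h1, mul_one, sub_self]
    rcases mul_eq_zero.mp h2 with h | h
    · exact absurd h (hne 0)
    · exact sub_eq_zero.mp h
  set F : ℝ → ℂ := fun u => ∫ x in (0 : ℝ)..u, f x with hF
  have hFd : ∀ u, HasDerivAt F (f u) u := fun u =>
    (hc.integral_hasStrictDerivAt 0 u).hasDerivAt
  obtain ⟨δ, hδ⟩ : ∃ δ, F δ ≠ 0 := by
    by_contra hcon
    push Not at hcon
    have h1 : F = fun _ => 0 := funext hcon
    have h2 := hFd 0
    rw [h1] at h2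
    have h3 := h2.unique (hasDerivAt_const (0 : ℝ) (0 : ℂ))
    rw [h0] at h3
    exact one_ne_zero h3
  have hfF : ∀ u, f u = (F (u + δ) - F u) / F δ := by
    intro u
    rw [eq_div_iff hδ]
    have h1 : f u * F δ = ∫ x in (0 : ℝ)..δ, f (u + x) := by
      rw [hF]
      simp only
      rw [← intervalIntegral.integral_const_mul]
      refine intervalIntegral.integral_congr (fun x _ => ?_)
      exact (ha u x).symm
    rw [h1, intervalIntegral.integral_comp_add_left (fun x => f x) u, add_zero]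
    have h2 := intervalIntegral.integral_add_adjacent_intervals
      (hc.intervalIntegrable 0 u) (hc.intervalIntegrable u (u + δ)) (μ := volume)
    rw [hF]
    simp only
    rw [← h2]
    ring
  set c : ℂ := (f δ - 1) / F δ with hcdef
  have hfd : ∀ u, HasDerivAt f (c * f u) u := by
    intro u
    have h1 : HasDerivAt (fun u => (F (u + δ) - F u) / F δ) ((f (u + δ) - f u) / F δ) u := by
      have h2 : HasDerivAt (fun u => F (u + δ)) (f (u + δ)) u :=
        (hFd (u + δ)).comp_add_const u δ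
      exact (h2.sub (hFd u)).div_const (F δ)
    have h3 : (fun u => (F (u + δ) - F u) / F δ) = f := by
      funext u
      exact (hfF u).symm
    rw [h3] at h1
    have h4 : (f (u + δ) - f u) / F δ = c * f u := by
      rw [hcdef, ha]
      ring
    rw [h4] at h1
    exact h1
  have hg : ∀ u : ℝ, f u * Complex.exp (-(c * (u : ℂ))) = 1 := by
    have hd : ∀ u : ℝ, HasDerivAt (fun u : ℝ => f u * Complex.exp (-(c * (u : ℂ)))) 0 u := by
      intro u
      have h1 : HasDerivAt (fun u : ℝ => -(c * (u : ℂ))) (-c) u := by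
        have h5 : HasDerivAt (fun u : ℝ => (u : ℂ)) 1 u := by
          exact (hasDerivAt_id u).ofReal_comp
        have h6 : HasDerivAt (fun u : ℝ => c * (u : ℂ)) (c * 1) u := h5.const_mul c
        rw [mul_one] at h6
        exact h6.fun_neg
      have h2 := (hfd u).mul h1.cexp
      have h3 : c * f u * Complex.exp (-(c * (u : ℂ))) +
          f u * (Complex.exp (-(c * (u : ℂ))) * -c) = 0 := by ring
      rw [h3] at h2
      exact h2
    have hconst := is_const_of_deriv_eq_zero (f := fun u : ℝ => f u * Complex.exp (-(c * (u : ℂ))))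
      (fun u => (hd u).differentiableAt) (fun u => (hd u).deriv)
    intro u
    have h7 : f u * Complex.exp (-(c * (u : ℂ))) = f 0 * Complex.exp (-(c * ((0 : ℝ) : ℂ))) :=
      hconst u 0
    rw [h7, h0]
    simp
  have hfe : ∀ u : ℝ, f u = Complex.exp (c * (u : ℂ)) := by
    intro u
    have h1 := hg u
    rw [Complex.exp_neg] at h1
    have h2 : Complex.exp (c * (u : ℂ)) ≠ 0 := Complex.exp_ne_zero _
    field_simp at h1
    exact h1
  have hre : c.re = 0 := by
    have h1 := hn 1
    rw [hfe 1, Complex.norm_exp] at h1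
    have h2 : (c * ((1 : ℝ) : ℂ)).re = 0 := by
      exact Real.exp_eq_one_iff _ |>.mp h1
    simpa using h2
  refine ⟨c.im, fun t => ?_⟩
  rw [hfe t]
  congr 1
  apply Complex.ext <;> simp [hre]

theorem char_core : ∀ χ : ℂ → ℂ, (∀ ζ, ‖χ ζ‖ = 1) → (∀ ζ ζ', χ (ζ + ζ') = χ ζ * χ ζ') →
    Continuous χ → ∃ a : ℂ, ∀ ζ, χ ζ = Complex.exp (Complex.I * (((a * ζ).re : ℝ) : ℂ)) := by
  intro χ hn ha hc
  obtain ⟨α, hα⟩ := one_dim (fun x : ℝ => χ (x : ℂ)) (fun x => hn _)
    (fun s t => by rw [← ha]; push_cast; rfl) (hc.comp Complex.continuous_ofReal)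
  obtain ⟨β, hβ⟩ := one_dim (fun x : ℝ => χ ((x : ℂ) * Complex.I)) (fun x => hn _)
    (fun s t => by rw [← ha]; push_cast; ring_nf)
    (hc.comp (Complex.continuous_ofReal.mul continuous_const))
  refine ⟨(α : ℂ) - β * Complex.I, fun ζ => ?_⟩
  have h1 : χ ζ = χ (ζ.re : ℂ) * χ ((ζ.im : ℂ) * Complex.I) := by
    rw [← ha, Complex.re_add_im]
  rw [h1]
  have h2 : χ (ζ.re : ℂ) = _ := hα ζ.re
  have h3 : χ ((ζ.im : ℂ) * Complex.I) = _ := hβ ζ.im
  rw [h2, h3, ← Complex.exp_add]
  congr 1
  have h4 : (((α : ℂ) - β * Complex.I) * ζ).re = α * ζ.re + β * ζ.im := by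
    simp
  rw [h4]
  push_cast
  ring

end Pool.Agent.W451.LY
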