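import Pool.Agent.W42.RG.Defs2
import Pool.Agent.W451.LY.CharCore

/-! Project LY: continuous characters of the plane. -/

set_option autoImplicit false

namespace Pool.Agent.W451.LY

theorem t_CHAR : Pool.Agent.W42.RG.S_CHAR := char_core

end Pool.Agent.W451.LY
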